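import Pool.Agent.Q297.BwH

/-!
A decomposable forward Brownian motion, built from pieces of length at most 3, which is not a
backward Brownian motion.
-/

open MeasureTheory ProbabilityTheory Set Filter Topology
open scoped ENNReal NNReal

namespace Pool.Agent.Results.MP_d1eed2_pr.BoundedPieces

variable {Ω : Type*} [mΩ : MeasurableSpace Ω]

/-- forward Brownian motion: there are random times `S n → -∞` such that `X` seen from each `S n`
is a standard Brownian motion -/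
def FBM (X : ℝ → Ω → ℝ) (P : Measure Ω) : Prop :=
  ∃ S : ℕ → Ω → ℝ, (∀ n, Measurable (S n)) ∧ (∀ᵐ ω ∂P, Tendsto (fun n => S n ω) atTop atBot) ∧
    ∀ n, IsBrownianReal (fun (t : ℝ≥0) ω => X (S n ω + t) ω - X (S n ω) ω) P

/-- backward Brownian motion -/
def BBM (X : ℝ → Ω → ℝ) (P : Measure Ω) : Prop := FBM (fun t => X (-t)) P

/-- normal filtration: right-continuous, and `F 0` contains all the null sets -/
def Normal (F : Filtration ℝ≥0 mΩ) (P : Measure Ω) : Prop :=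
  (∀ t, F t = ⨅ s > t, F s) ∧ ∀ A, P A = 0 → MeasurableSet[F 0] A

/-- Brownian motion with respect to the filtration `F` -/
def IsBMFor (F : Filtration ℝ≥0 mΩ) (B : ℝ≥0 → Ω → ℝ) (P : Measure Ω) : Prop :=
  IsBrownianReal B P ∧ (∀ t, Measurable[F t] (B t)) ∧
    ∀ s t, s ≤ t → Indep (MeasurableSpace.comap (fun ω => B t ω - B s ω) inferInstance) (F s) P

/-- the process `X` is built from independent Brownian pieces, stopped at stopping times which are
bounded by `c` -/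
def BuiltFromPieces (X : ℝ → Ω → ℝ) (P : Measure Ω) (c : ℝ≥0) : Prop :=
  ∃ (F : ℤ → Filtration ℝ≥0 mΩ) (B : ℤ → ℝ≥0 → Ω → ℝ) (T : ℤ → Ω → ℝ≥0) (S : ℤ → Ω → ℝ),
    (∀ k, Normal (F k) P) ∧
    (∀ k, IsBMFor (F k) (B k) P) ∧
    (∀ k, IsStoppingTime (F k) (fun ω => (T k ω : WithTop ℝ≥0))) ∧
    (∀ k ω, T k ω ≤ c) ∧
    iIndepFun (fun k ω => (T k ω, fun t : ℝ≥0 => B k (min t (T k ω)) ω)) P ∧
    (∀ ω, S 0 ω = 0) ∧ (∀ k ω, S (k + 1) ω = S k ω + T k ω) ∧
    (∀ᵐ ω ∂P, Tendsto (fun k => S k ω) atTop atTop) ∧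
    (∀ᵐ ω ∂P, Tendsto (fun k => S k ω) atBot atBot) ∧
    (∀ t, Measurable (X t)) ∧ (∀ᵐ ω ∂P, Continuous fun t => X t ω) ∧
    ∀ᵐ ω ∂P, X 0 ω = 0 ∧ ∀ k, ∀ t : ℝ≥0, t < T k ω → X (S k ω + t) ω - X (S k ω) ω = B k t ω

lemma exists_time {Ω' : Type*} {mΩ' : MeasurableSpace Ω'} {X : ℝ → Ω' → ℝ} {P : Measure Ω'}
    (h : BBM X P) : ∃ R : Ω' → ℝ, Measurable R ∧
      IsBrownianReal (fun (t : ℝ≥0) ω => X (R ω - t) ω - X (R ω) ω) P := by
  obtain ⟨S, hS, -, hB⟩ := h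
  refine ⟨fun ω => -S 0 ω, (hS 0).neg, ?_⟩
  have e : (fun (t : ℝ≥0) ω => X (-S 0 ω - t) ω - X (-S 0 ω) ω) =
      fun (t : ℝ≥0) ω => X (-(S 0 ω + t)) ω - X (-S 0 ω) ω := by
    funext t ω
    rw [neg_add, sub_eq_add_neg (-S 0 ω)]
  rw [e]
  exact hB 0

/-- **Main theorem.**  There is a continuous process `X` built from independent Brownian pieces
with `T k ≤ 3` for all `k`, for normal filtrations (so `X` is decomposable, with `U = 0`), which is
an FBM and not a BBM.  No continuous process with the law of `X`, on any probability space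
whatsoever, is a BBM; such a process does not even have one random time `R` from which it is a
Brownian motion when seen backward. -/
theorem result : ∃ (Ω : Type) (_ : MeasurableSpace Ω) (P : Measure Ω) (_ : IsProbabilityMeasure P)
    (X : ℝ → Ω → ℝ), (∀ t, Measurable (X t)) ∧ (∀ ω, Continuous fun t => X t ω) ∧
      BuiltFromPieces X P 3 ∧ FBM X P ∧ ¬ BBM X P ∧
      ∀ (Ω' : Type) (_ : MeasurableSpace Ω') (P' : Measure Ω') (X' : ℝ → Ω' → ℝ),
        (∀ t, Measurable (X' t)) → (∀ᵐ ω ∂P', Continuous fun t => X' t ω) →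
        P'.map (fun ω t => X' t ω) = P.map (fun ω t => X t ω) →
        ¬ BBM X' P' ∧ ¬ ∃ R : Ω' → ℝ, Measurable R ∧
          IsBrownianReal (fun (t : ℝ≥0) ω => X' (R ω - t) ω - X' (R ω) ω) P' := by
  obtain ⟨Ω, mΩ, P, hP, X, h1, h2, h3, h4, h5⟩ := Q297.Bw.main
  refine ⟨Ω, mΩ, P, hP, X, h1, h2, h3, h4, ?_, ?_⟩
  · intro h
    exact h5 Ω mΩ P X h1 (ae_of_all _ h2) rfl (exists_time h)
  · intro Ω' mΩ' P' X' h6 h7 h8
    exact ⟨fun h => h5 Ω' mΩ' P' X' h6 h7 h8 (exists_time h), h5 Ω' mΩ' P' X' h6 h7 h8⟩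

end Pool.Agent.Results.MP_d1eed2_pr.BoundedPieces
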